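import Pool.Agent.H64.MM.Fam2
import Pool.Agent.H47.MM.Fam3
import Pool.Agent.H39.HO.NP
import Pool.Agent.H39.EMB.Fin

/-!
# Module Asm: all hypotheses of the kernels of the THEOREMS M and MN for the families

PROOF. `v = ex d m x`, `f = Rf v`, `a` critical in `JS f`. Hypothesis (N): every nonempty closed `A` in `Om f a` with `f (A)` in `A` contains a critical point (if `KK f` is totally disconnected: `nfp_all`, `Om f a ⊆ KK f`). `fam2`: the chart.
`atx_fam`, `fld`: `μ`, `x`, `y`. `A = {y ∈ Om f a | φ y ∈ Om (Rf u) x}` is closed, nonempty, mapped into itself: it contains a critical point `c0 ∈ Cw f a`. `Om f c0 ⊆ Om f a` closed, nonempty, invariant: a critical point.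
-/

set_option autoImplicit false

open Filter Topology Polynomial Metric Set MeasureTheory

namespace Pool.Agent.H64.MN

open Pool.Agent.H44.Fatou (rat rat_continuous)
open Pool.Agent.H32.BT (IsCrit)
open Pool.Agent.H79.Eul Pool.Agent.H79.Par
open Pool.Agent.H47.NM (ex Em)
open Pool.Agent.H57.CF (UpF)
open Pool.Agent.H44.RC (JS Om J6)
open Pool.Agent.H64.TP (KK)
open Pool.Agent.H56.MM (Cw)
open Pool.Agent.H91.ATT (Mb ATX atx_fam)
open Pool.Agent.H15.LOC (Lim)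
open Pool.Agent.H47.MM (Hyp FI)
open Pool.Agent.H47.OI (AC)

theorem om_closed (f : OnePoint ℂ → OnePoint ℂ) (x : OnePoint ℂ) : IsClosed (Om f x) := by
  rw [← isOpen_compl_iff, isOpen_iff_mem_nhds]
  intro y hy
  have hy' : ¬ ∀ U ∈ 𝓝 y, ∃ᶠ n : ℕ in atTop, f^[n] x ∈ U := hy
  push Not at hy'
  obtain ⟨U, hU, h⟩ := hy'
  filter_upwards [interior_mem_nhds.2 hU] with z hz hz'
  exact (hz' (interior U) (isOpen_interior.mem_nhds hz)) (by
    filter_upwards [h] with n hn hn'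
    exact hn (interior_subset hn'))

theorem om_map {f : OnePoint ℂ → OnePoint ℂ} (hf : Continuous f) {x y : OnePoint ℂ} (hy : y ∈ Om f x) : f y ∈ Om f x := by
  intro U hU
  have h1 := hy _ (hf.continuousAt.preimage_mem_nhds hU)
  have h2 : ∃ᶠ n : ℕ in atTop, f^[n + 1] x ∈ U := by
    refine h1.mono fun n hn => ?_
    rw [Function.iterate_succ_apply']
    exact hn
  rw [frequently_atTop] at h2 ⊢
  intro k
  obtain ⟨n, hn, h3⟩ := h2 k
  exact ⟨n + 1, by omega, h3⟩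

theorem om_ne (f : OnePoint ℂ → OnePoint ℂ) (x : OnePoint ℂ) : (Om f x).Nonempty := by
  obtain ⟨y, hy⟩ := exists_clusterPt_of_compactSpace (Filter.map (fun n : ℕ => f^[n] x) atTop)
  refine ⟨y, fun U hU => ?_⟩
  exact (mapClusterPt_iff_frequently.1 hy) U hU

theorem om_sub_orb {f : OnePoint ℂ → OnePoint ℂ} {x : OnePoint ℂ} : Om f x ⊆ closure (range fun n : ℕ => f^[n] x) := by
  intro y hy
  rw [mem_closure_iff_nhds]
  intro U hU
  obtain ⟨n, hn⟩ := (hy U hU).exists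
  exact ⟨f^[n] x, hn, n, rfl⟩

/-- the limit set of a point of a closed invariant set -/
theorem om_sub_inv {f : OnePoint ℂ → OnePoint ℂ} {A : Set (OnePoint ℂ)} (hA : IsClosed A) (hfA : ∀ x ∈ A, f x ∈ A) {x : OnePoint ℂ}
    (hx : x ∈ A) : Om f x ⊆ A := by
  refine om_sub_orb.trans (closure_minimal ?_ hA)
  rintro _ ⟨n, rfl⟩
  show f^[n] x ∈ A
  induction n with
  | zero => exact hx
  | succ n ih =>
    rw [Function.iterate_succ_apply']
    exact hfA _ ih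

theorem om_kk {f : OnePoint ℂ → OnePoint ℂ} {a : OnePoint ℂ} (ha : IsCrit f a) (haJ : a ∈ JS f) : Om f a ⊆ KK f := by
  intro y hy
  show y ∈ closure _
  rw [mem_closure_iff_nhds]
  intro U hU
  obtain ⟨n, hn, h1⟩ := frequently_atTop.1 (hy U hU) 1
  exact ⟨f^[n] a, h1, a, ha, haJ, n, hn, rfl⟩

/-- conjugacies and limit sets -/
theorem om_cj {f g : OnePoint ℂ → OnePoint ℂ} {φ : OnePoint ℂ ≃ₜ OnePoint ℂ} (conj : ∀ y, g (φ y) = φ (f y))
    {x y : OnePoint ℂ} (h : y ∈ Om f x) : φ y ∈ Om g (φ x) := by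
  intro U hU
  have h1 := h _ (φ.continuous.continuousAt.preimage_mem_nhds hU)
  refine h1.mono fun n hn => ?_
  have h2 : ∀ n : ℕ, g^[n] (φ x) = φ (f^[n] x) := by
    intro n
    induction n with
    | zero => rfl
    | succ n ih => rw [Function.iterate_succ_apply', Function.iterate_succ_apply', ih, conj]
  rw [h2]
  exact hn

/-- hypothesis (N) -/
theorem hN_of {d m : ℕ} (hd : 2 ≤ d) (hm : m ≤ d) {x : Em d m} (hcop : IsCoprime (pol x.1) (pol x.2))
    (hdeg : max (pol x.1).natDegree (pol x.2).natDegree = d) (hup : ¬ UpF d m x) {a : OnePoint ℂ}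
    (ha : IsCrit (Rf (ex d m x)) a) (haJ : a ∈ JS (Rf (ex d m x)))
    (h : IsTotallyDisconnected (KK (Rf (ex d m x))) ∨ ∀ A ⊆ Om (Rf (ex d m x)) a, IsClosed A → A.Nonempty →
      (∀ y ∈ A, Rf (ex d m x) y ∈ A) → ∃ c ∈ A, IsCrit (Rf (ex d m x)) c) :
    ∀ A ⊆ Om (Rf (ex d m x)) a, IsClosed A → A.Nonempty → (∀ y ∈ A, Rf (ex d m x) y ∈ A) →
      ∃ c ∈ A, IsCrit (Rf (ex d m x)) c := by
  rcases h with h | h
  · intro A hA hAc hAn hAf
    have hAK : A ⊆ KK (Rf (ex d m x)) := hA.trans (om_kk ha haJ)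
    obtain ⟨y, hy, h1⟩ := Pool.Agent.H39.HO.nfp_all hd hm hcop hdeg hup A hAK hAc hAn hAf
    have h2 : connectedComponentIn (KK (Rf (ex d m x))) y = {y} := by
      apply Subset.antisymm
      · intro z hz
        exact h _ (connectedComponentIn_subset _ _) isPreconnected_connectedComponentIn hz
          (mem_connectedComponentIn (hAK hy))
      · rw [singleton_subset_iff]
        exact mem_connectedComponentIn (hAK hy)
    have h3 : connectedComponentIn (Pool.Agent.H64.JS.KJ {c | IsCrit (Rf (ex d m x)) c} (JS (Rf (ex d m x))) (Rf (ex d m x))) y = {y} := h2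
    rw [h3] at h1
    rcases h1 with h1 | ⟨c, hc, hcr⟩
    · exact absurd (Pool.Agent.H39.EMB.compl_pt y) h1
    · rw [mem_singleton_iff.1 hc] at hcr
      exact ⟨y, hy, hcr⟩
  · exact h

theorem asm {d m : ℕ} (hd : 2 ≤ d) (hm : m ≤ d) {x : Em d m} (hcop : IsCoprime (pol x.1) (pol x.2))
    (hdeg : max (pol x.1).natDegree (pol x.2).natDegree = d) (hup : ¬ UpF d m x) {a : OnePoint ℂ}
    (ha : IsCrit (Rf (ex d m x)) a) (haJ : a ∈ JS (Rf (ex d m x)))
    (h : IsTotallyDisconnected (KK (Rf (ex d m x))) ∨ ∀ A ⊆ Om (Rf (ex d m x)) a, IsClosed A → A.Nonempty →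
      (∀ y ∈ A, Rf (ex d m x) y ∈ A) → ∃ c ∈ A, IsCrit (Rf (ex d m x)) c) :
    ∃ (p q : Polynomial ℂ) (C : Set ℂ) (φ : OnePoint ℂ ≃ₜ OnePoint ℂ), Mb φ ∧
      (∀ y, rat p q (φ y) = φ (Rf (ex d m x) y)) ∧ Hyp p q C ∧ J6 (rat p q) ∧
      (∀ c ∈ C, φ.symm (c : OnePoint ℂ) ∈ Cw (Rf (ex d m x)) a) ∧
      (∀ s ∈ Cw (Rf (ex d m x)) a, ∃ c ∈ C, φ s = (c : OnePoint ℂ)) ∧
      (∀ c ∈ C, rat p q (c : OnePoint ℂ) ≠ OnePoint.infty) ∧
      ∃ μ : ℂ → ℂ, FI (rat p q) μ ∧ ∃ z : ℂ, (z : OnePoint ℂ) ∈ JS (rat p q) ∧ ‖μ z‖ = 1 ∧ AC μ z (μ z) ∧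
        ∃ a0 ∈ C, (a0 : OnePoint ℂ) ∈ Om (rat p q) (z : OnePoint ℂ) ∧
          ∃ c ∈ C, (c : OnePoint ℂ) ∈ Om (rat p q) (a0 : OnePoint ℂ) := by
  have hN := hN_of hd hm hcop hdeg hup ha haJ h
  obtain ⟨L, G, φ, K, -, hmb, hcop', hdeg', conj, -, h6, hφC, hH, hrest⟩ := Pool.Agent.H64.MM.fam2 hd hm hcop hdeg hup a
  obtain ⟨hfin, hOm, hnd⟩ := hrest haJ hN
  have hatx : ATX (Rf (ex d m x)) a := atx_fam hd hm hcop hdeg hup ha haJ
  have hcopx := Pool.Agent.H57.CF.ex_cop hcop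
  have hdegx := Pool.Agent.H57.CF.ex_deg hdeg
  have hfc : Continuous (Rf (ex d m x)) := rat_continuous hcopx
  obtain ⟨μ, hμ, z, hzJ, h1, hac, y, hy, hyO⟩ := Pool.Agent.H47.MM.fld hd hcopx hdegx hcop' hdeg' hmb conj hatx hnd
  have hfu : Continuous (Rf (L (ex d m x))) := rat_continuous hcop'
  have hKJ : KK (Rf (ex d m x)) ⊆ JS (Rf (ex d m x)) :=
    Pool.Agent.H64.JS.kj_sub (Pool.Agent.H47.RJ.js_closed _) (Pool.Agent.H64.PF.js_inv hd hcopx hdegx)
  -- critical points in the limit set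
  have hCw : ∀ c ∈ Om (Rf (ex d m x)) a, IsCrit (Rf (ex d m x)) c → c ∈ Cw (Rf (ex d m x)) a := fun c hc hcr =>
    ⟨hcr, hKJ (om_kk ha haJ hc), c, subset_closure ⟨0, rfl⟩, hcr, hc⟩
  have hC : ∀ s ∈ Cw (Rf (ex d m x)) a, ∃ c ∈ {z : ℂ | φ.symm (z : OnePoint ℂ) ∈ Cw (Rf (ex d m x)) a}, φ s = (c : OnePoint ℂ) := by
    intro s hs
    have h2 := hφC s hs
    have h3 : ∃ c : ℂ, φ s = (c : OnePoint ℂ) := by
      generalize φ s = w at h2
      induction w using OnePoint.rec with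
      | infty => exact absurd rfl h2
      | coe c => exact ⟨c, rfl⟩
    obtain ⟨c, hc⟩ := h3
    refine ⟨c, ?_, hc⟩
    show φ.symm (c : OnePoint ℂ) ∈ Cw (Rf (ex d m x)) a
    rw [← hc, φ.symm_apply_apply]
    exact hs
  -- a critical point in the limit sets of `a` and of the typical point
  obtain ⟨c0, ⟨hc0a, hc0z⟩, hc0⟩ := hN (Om (Rf (ex d m x)) a ∩ φ ⁻¹' Om (Rf (L (ex d m x))) (z : OnePoint ℂ)) inter_subset_left
    ((om_closed _ _).inter ((om_closed _ _).preimage φ.continuous))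
    ⟨y, fun U hU => (mapClusterPt_iff_frequently.1 hy) U hU, hyO⟩ (fun y hy => ⟨om_map hfc hy.1, by
      show φ (Rf (ex d m x) y) ∈ Om (Rf (L (ex d m x))) (z : OnePoint ℂ)
      rw [← conj]
      exact om_map hfu hy.2⟩)
  obtain ⟨a0, ha0, ha0e⟩ := hC c0 (hCw c0 hc0a hc0)
  have hsub : Om (Rf (ex d m x)) c0 ⊆ Om (Rf (ex d m x)) a := om_sub_inv (om_closed _ _) (fun y hy => om_map hfc hy) hc0a
  obtain ⟨c1, hc1, hc1c⟩ := hN (Om (Rf (ex d m x)) c0) hsub (om_closed _ _) (om_ne _ _) (fun y hy => om_map hfc hy)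
  obtain ⟨c, hc, hce⟩ := hC c1 (hCw c1 (hsub hc1) hc1c)
  refine ⟨pol (L (ex d m x)).1, pol (L (ex d m x)).2, {z : ℂ | φ.symm (z : OnePoint ℂ) ∈ Cw (Rf (ex d m x)) a}, φ, hmb, conj,
    hH, h6, fun c hc => hc, hC, ?_, μ, hμ, z, hzJ, h1, hac, a0, ha0, ?_, c, hc, ?_⟩
  · intro c hc
    have h2 := hfin _ hc
    rw [← conj, φ.apply_symm_apply] at h2
    exact h2
  · rw [← ha0e]
    exact hc0z
  · rw [← ha0e, ← hce]
    exact om_cj conj hc1

end Pool.Agent.H64.MN
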