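import Pool.Agent.H47.MM.Defs
import Pool.Agent.H47.RJ.LCS
import Pool.Agent.H32.BT.Crit
import Pool.Agent.H43.UB.UH
import Pool.Agent.H39.HO.PB

/-!
# Module Lfc: lifting to a component without critical points

`f` continuous and open on the sphere with finite fibres, `V` open, `U` a component of the preimage of `V` without critical points. Then `f : U → V` is a covering (closed, locally injective), and a continuous map of the disc to `V` lifts to `U`. For rational maps and univalent functions of the disc the lift is univalent.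
-/

set_option autoImplicit false

open Filter Topology Polynomial Metric Set MeasureTheory

namespace Pool.Agent.H64.MN

open Pool.Agent.H44.Fatou (rat rat_continuous rat_coe rat_coe_of_ne pt)
open Pool.Agent.H32.BT (IsCrit rat_fiber_finite rat_open)
open Pool.Agent.H47.MM (Un)
open Pool.Agent.H43.UB (uh_open uh_der)

/-- the component of the preimage -/
def Cp (f : OnePoint ℂ → OnePoint ℂ) (V : Set (OnePoint ℂ)) (x : OnePoint ℂ) : Set (OnePoint ℂ) :=
  connectedComponentIn (f ⁻¹' V) x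

theorem cp_open {f : OnePoint ℂ → OnePoint ℂ} (hf : Continuous f) {V : Set (OnePoint ℂ)} (hV : IsOpen V) (x : OnePoint ℂ) :
    IsOpen (Cp f V x) := by
  haveI : LocallyConnectedSpace (OnePoint ℂ) := Pool.Agent.H47.RJ.lcs
  exact (hV.preimage hf).connectedComponentIn

theorem cp_sub {f : OnePoint ℂ → OnePoint ℂ} {V : Set (OnePoint ℂ)} {x : OnePoint ℂ} : Cp f V x ⊆ f ⁻¹' V :=
  connectedComponentIn_subset _ _

theorem cp_mem {f : OnePoint ℂ → OnePoint ℂ} {V : Set (OnePoint ℂ)} {x z : OnePoint ℂ} (hz : z ∈ Cp f V x) : f z ∈ V := by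
  have h : z ∈ f ⁻¹' V := connectedComponentIn_subset _ _ hz
  exact h

/-- the component is relatively closed -/
theorem cp_closed {f : OnePoint ℂ → OnePoint ℂ} (hf : Continuous f) {V : Set (OnePoint ℂ)} (hV : IsOpen V) {x y : OnePoint ℂ}
    (hy : y ∈ closure (Cp f V x)) (hyV : f y ∈ V) : y ∈ Cp f V x := by
  have h1 : y ∈ Cp f V y := mem_connectedComponentIn hyV
  obtain ⟨z, hz1, hz2⟩ := mem_closure_iff.1 hy _ (cp_open hf hV y) h1
  have e1 : Cp f V x = Cp f V z := connectedComponentIn_eq hz2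
  have e2 : Cp f V y = Cp f V z := connectedComponentIn_eq hz1
  rw [e1, ← e2]
  exact h1

/-- a component without critical points is mapped by a covering -/
theorem cp_cov {f : OnePoint ℂ → OnePoint ℂ} (hf : Continuous f) (ho : IsOpenMap f) (hfin : ∀ z, (f ⁻¹' {z}).Finite)
    {V : Set (OnePoint ℂ)} (hV : IsOpen V) {x : OnePoint ℂ} (hcr : ∀ q ∈ Cp f V x, ¬ IsCrit f q) :
    IsCoveringMapOn (fun z : Cp f V x => (⟨f z, cp_mem z.2⟩ : V)) univ := by
  obtain ⟨U, hU⟩ : ∃ U, U = Cp f V x := ⟨_, rfl⟩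
  have hUo : IsOpen (Cp f V x) := cp_open hf hV x
  have hcont : Continuous (fun z : Cp f V x => (⟨f z, cp_mem z.2⟩ : V)) :=
    Continuous.subtype_mk (hf.comp continuous_subtype_val) _
  apply IsClosedMap.isCoveringMapOn_of_isLocalHomeomorphOn
  · -- closed
    intro A hA
    obtain ⟨A', hA', hAA⟩ := isClosed_induced_iff.1 hA
    rw [isClosed_induced_iff]
    refine ⟨f '' (closure (Subtype.val '' A)), (isClosed_closure.isCompact.image hf).isClosed, ?_⟩
    ext ⟨v, hv⟩
    constructor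
    · rintro ⟨y, hy, hyv⟩
      have hyv' : f y = v := hyv
      have h1 : y ∈ Cp f V x := by
        apply cp_closed hf hV
        · refine closure_mono ?_ hy
          rintro _ ⟨z, -, rfl⟩
          exact z.2
        · rw [hyv']
          exact hv
      refine ⟨⟨y, h1⟩, ?_, Subtype.ext hyv'⟩
      rw [← hAA]
      show y ∈ A'
      have h2 : closure (Subtype.val '' A) ⊆ A' := by
        apply closure_minimal _ hA'
        rintro _ ⟨z, hz, rfl⟩
        rw [← hAA] at hz
        exact hz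
      exact h2 hy
    · rintro ⟨z, hz, hzv⟩
      refine ⟨z, subset_closure ⟨z, hz, rfl⟩, ?_⟩
      exact congrArg Subtype.val hzv
  · -- finite fibres
    rintro ⟨v, hv⟩ -
    have h1 : ((fun z : Cp f V x => (⟨f z, cp_mem z.2⟩ : V)) ⁻¹' {⟨v, hv⟩}) = Subtype.val ⁻¹' (f ⁻¹' {v}) := by
      ext z
      constructor
      · intro h
        exact congrArg Subtype.val h
      · intro h
        exact Subtype.ext h
    rw [h1]
    exact (hfin v).preimage Subtype.val_injective.injOn
  · -- local homeomorphism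
    rw [isLocalHomeomorphOn_iff_isOpenEmbedding_restrict]
    rintro ⟨z, hz⟩ -
    have h1 := hcr z hz
    unfold IsCrit at h1
    push Not at h1
    obtain ⟨W, hW, hinj⟩ := h1
    refine ⟨Subtype.val ⁻¹' interior W, (isOpen_interior.preimage continuous_subtype_val).mem_nhds
      (mem_interior_iff_mem_nhds.2 hW), ?_⟩
    apply IsOpenEmbedding.of_continuous_injective_isOpenMap
    · exact hcont.comp continuous_subtype_val
    · rintro ⟨⟨a, ha'⟩, ha⟩ ⟨⟨b, hb'⟩, hb⟩ hab
      have h2 : f a = f b := congrArg Subtype.val hab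
      exact Subtype.ext (Subtype.ext (hinj (interior_subset ha) (interior_subset hb) h2))
    · have h3 : IsOpenMap (fun z : Cp f V x => (⟨f z, cp_mem z.2⟩ : V)) := by
        intro O hO
        rw [isOpen_induced_iff]
        refine ⟨f '' (Subtype.val '' O), ho _ (hUo.isOpenMap_subtype_val _ hO), ?_⟩
        ext ⟨v, hv⟩
        constructor
        · rintro ⟨_, ⟨z, hz, rfl⟩, hzv⟩
          exact ⟨z, hz, Subtype.ext hzv⟩
        · rintro ⟨z, hz, hzv⟩
          exact ⟨z, ⟨z, hz, rfl⟩, congrArg Subtype.val hzv⟩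
      exact h3.domRestrict (isOpen_interior.preimage continuous_subtype_val)

/-- lifting to a component without critical points -/
theorem lfc {f : OnePoint ℂ → OnePoint ℂ} (hf : Continuous f) (ho : IsOpenMap f) (hfin : ∀ z, (f ⁻¹' {z}).Finite)
    {V : Set (OnePoint ℂ)} (hV : IsOpen V) {x : OnePoint ℂ} (hcr : ∀ q ∈ Cp f V x, ¬ IsCrit f q)
    {γ : ℂ → OnePoint ℂ} (hγ : ContinuousOn γ (ball 0 1)) (hγV : ∀ w ∈ ball (0 : ℂ) 1, γ w ∈ V) {w0 : ℂ}
    (hw0 : w0 ∈ ball (0 : ℂ) 1) (hx : f x = γ w0) :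
    ∃ σ : ℂ → OnePoint ℂ, ContinuousOn σ (ball 0 1) ∧ σ w0 = x ∧ ∀ w ∈ ball (0 : ℂ) 1, f (σ w) = γ w ∧ σ w ∈ Cp f V x := by
  classical
  have hxV : f x ∈ V := by
    rw [hx]
    exact hγV w0 hw0
  have hxU : x ∈ Cp f V x := mem_connectedComponentIn hxV
  have h1 : ContractibleSpace (ball (0 : ℂ) 1) := (convex_ball (0 : ℂ) 1).contractibleSpace ⟨w0, hw0⟩
  have h2 : LocallyPathConnectedSpace (ball (0 : ℂ) 1) := isOpen_ball.locallyPathConnectedSpace
  let γ' : C(ball (0 : ℂ) 1, V) := ⟨fun t => ⟨γ t, hγV t t.2⟩,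
    Continuous.subtype_mk (continuousOn_iff_continuous_domRestrict.1 hγ) _⟩
  obtain ⟨F, ⟨hF1, hF2⟩, -⟩ := (cp_cov hf ho hfin hV hcr).existsUnique_continuousMap_lifts γ'
    (a₀ := ⟨w0, hw0⟩) (e₀ := ⟨x, hxU⟩) (Subtype.ext hx) (fun a => mem_univ _)
  refine ⟨fun t => if h : t ∈ ball (0 : ℂ) 1 then (F ⟨t, h⟩ : OnePoint ℂ) else x, ?_, ?_, ?_⟩
  · rw [continuousOn_iff_continuous_domRestrict]
    have : (ball (0 : ℂ) 1).domRestrict (fun t => if h : t ∈ ball (0 : ℂ) 1 then (F ⟨t, h⟩ : OnePoint ℂ) else x) =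
        fun t => (F t : OnePoint ℂ) := by
      funext t
      have ht : (t : ℂ) ∈ ball (0 : ℂ) 1 := t.2
      show (if h : (t : ℂ) ∈ ball (0 : ℂ) 1 then (F ⟨t, h⟩ : OnePoint ℂ) else x) = F t
      rw [dif_pos ht]
    rw [this]
    exact continuous_subtype_val.comp F.continuous
  · simp only [hw0, dif_pos]
    rw [hF1]
  · intro t ht
    simp only [ht, dif_pos]
    refine ⟨?_, (F ⟨t, ht⟩).2⟩
    have h3 := congrFun hF2 ⟨t, ht⟩
    exact congrArg Subtype.val h3

/-- univalent lifting to a component without critical points -/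
theorem lfu {a b : Polynomial ℂ} (hcop : IsCoprime a b) (hd : 1 ≤ max a.natDegree b.natDegree)
    (hfi : rat a b OnePoint.infty = OnePoint.infty) {V : Set (OnePoint ℂ)} (hV : IsOpen V) {G : ℂ → ℂ} (hG : Un G)
    (hGV : ∀ w ∈ ball (0 : ℂ) 1, ((G w : ℂ) : OnePoint ℂ) ∈ V) {x w0 : ℂ} (hw0 : w0 ∈ ball (0 : ℂ) 1)
    (hx : rat a b (x : OnePoint ℂ) = ((G w0 : ℂ) : OnePoint ℂ))
    (hcr : ∀ q ∈ Cp (rat a b) V (x : OnePoint ℂ), ¬ IsCrit (rat a b) q) :
    ∃ S : ℂ → ℂ, Un S ∧ S w0 = x ∧ ∀ w ∈ ball (0 : ℂ) 1, rat a b ((S w : ℂ) : OnePoint ℂ) = ((G w : ℂ) : OnePoint ℂ) ∧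
      ((S w : ℂ) : OnePoint ℂ) ∈ Cp (rat a b) V (x : OnePoint ℂ) := by
  have hcont : Continuous (rat a b) := rat_continuous hcop
  have hγ : ContinuousOn (fun w : ℂ => ((G w : ℂ) : OnePoint ℂ)) (ball 0 1) :=
    OnePoint.continuous_coe.comp_continuousOn hG.1.continuousOn
  obtain ⟨σ, hσc, hσ0, hσ⟩ := lfc hcont (rat_open hcop hd) (rat_fiber_finite hcop hd) hV hcr hγ hGV hw0 hx
  have hfinite : ∀ w ∈ ball (0 : ℂ) 1, ∃ s : ℂ, (s : OnePoint ℂ) = σ w := by
    intro w hw
    have h1 := (hσ w hw).1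
    generalize σ w = y at h1 ⊢
    induction y using OnePoint.rec with
    | infty =>
      rw [hfi] at h1
      exact absurd h1 (OnePoint.infty_ne_coe _)
    | coe s => exact ⟨s, rfl⟩
  choose! S hS using hfinite
  have hSc : ContinuousOn S (ball 0 1) := by
    have h1 : ContinuousOn (fun w : ℂ => ((S w : ℂ) : OnePoint ℂ)) (ball 0 1) :=
      hσc.congr fun w hw => hS w hw
    exact (OnePoint.isOpenEmbedding_coe.isInducing.continuousOn_iff).2 h1
  have hSf : ∀ w ∈ ball (0 : ℂ) 1, rat a b ((S w : ℂ) : OnePoint ℂ) = ((G w : ℂ) : OnePoint ℂ) := by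
    intro w hw
    rw [hS w hw]
    exact (hσ w hw).1
  refine ⟨S, ⟨?_, ?_⟩, ?_, fun w hw => ⟨hSf w hw, ?_⟩⟩
  · -- holomorphic
    intro w1 hw1
    have hcr1 : ¬ IsCrit (rat a b) ((S w1 : ℂ) : OnePoint ℂ) := by
      apply hcr
      rw [hS w1 hw1]
      exact (hσ w1 hw1).2
    unfold IsCrit at hcr1
    push Not at hcr1
    obtain ⟨W, hW, hinj⟩ := hcr1
    have hb : b.eval (S w1) ≠ 0 := by
      intro h0
      have h1 := hSf w1 hw1
      rw [rat_coe] at h1
      unfold pt at h1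
      rw [if_pos h0] at h1
      exact OnePoint.infty_ne_coe _ h1
    have h2 : ∀ᶠ z : ℂ in 𝓝 (S w1), (z : OnePoint ℂ) ∈ W ∧ b.eval z ≠ 0 :=
      (OnePoint.continuous_coe.continuousAt.eventually_mem hW).and (b.continuous.continuousAt.eventually_ne hb)
    obtain ⟨r, hr, hrW⟩ := Metric.eventually_nhds_iff_ball.1 h2
    obtain ⟨f1, hf1⟩ : ∃ f1 : ℂ → ℂ, f1 = fun z => a.eval z / b.eval z := ⟨_, rfl⟩
    have hfr : ∀ z ∈ ball (S w1) r, rat a b (z : OnePoint ℂ) = ((f1 z : ℂ) : OnePoint ℂ) := by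
      intro z hz
      rw [hf1, rat_coe_of_ne (hrW z hz).2]
    have hf1d : DifferentiableOn ℂ f1 (ball (S w1) r) := by
      rw [hf1]
      exact a.differentiable.differentiableOn.div b.differentiable.differentiableOn fun z hz => (hrW z hz).2
    have hf1i : InjOn f1 (ball (S w1) r) := by
      intro z hz z' hz' h
      have h3 : rat a b (z : OnePoint ℂ) = rat a b (z' : OnePoint ℂ) := by rw [hfr z hz, hfr z' hz', h]
      exact OnePoint.coe_injective (hinj (hrW z hz).1 (hrW z' hz').1 h3)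
    obtain ⟨k, hk⟩ : ∃ k, k = Function.invFunOn f1 (ball (S w1) r) := ⟨_, rfl⟩
    have hkd : DifferentiableOn ℂ k (f1 '' ball (S w1) r) := hk ▸ Pool.Agent.H39.HO.inj_hol isOpen_ball hf1d hf1i
    have hopen : IsOpen (f1 '' ball (S w1) r) := Pool.Agent.H39.HO.inj_open isOpen_ball hf1d hf1i subset_rfl isOpen_ball
    have hkg : ∀ y ∈ ball (S w1) r, k (f1 y) = y := fun y hy => by
      rw [hk]
      exact hf1i.leftInvOn_invFunOn hy
    have hnb : ∀ᶠ w in 𝓝 w1, w ∈ ball (0 : ℂ) 1 ∧ S w ∈ ball (S w1) r :=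
      (isOpen_ball.eventually_mem hw1).and
        ((hSc.continuousAt (isOpen_ball.mem_nhds hw1)).eventually_mem (ball_mem_nhds _ hr))
    have heq : ∀ᶠ w in 𝓝 w1, S w = k (G w) := by
      filter_upwards [hnb] with w hw
      have h4 : f1 (S w) = G w := by
        have h5 := hSf w hw.1
        rw [hfr _ hw.2] at h5
        exact OnePoint.coe_injective h5
      rw [← h4, hkg _ hw.2]
    have hG1 : G w1 ∈ f1 '' ball (S w1) r := by
      refine ⟨S w1, mem_ball_self hr, ?_⟩
      have h5 := hSf w1 hw1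
      rw [hfr _ (mem_ball_self hr)] at h5
      exact OnePoint.coe_injective h5
    have h6 : DifferentiableAt ℂ (fun w => k (G w)) w1 :=
      (hkd.differentiableAt (hopen.mem_nhds hG1)).comp w1 (hG.1.differentiableAt (isOpen_ball.mem_nhds hw1))
    exact (h6.congr_of_eventuallyEq heq).differentiableWithinAt
  · intro w hw w' hw' h
    have h1 := hSf w hw
    rw [h, hSf w' hw'] at h1
    exact (hG.2 hw' hw (OnePoint.coe_injective h1)).symm
  · exact OnePoint.coe_injective (by rw [hS w0 hw0, hσ0])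
  · rw [hS w hw]
    exact (hσ w hw).2

end Pool.Agent.H64.MN
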