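import Pool.Agent.H39.EMB.Fin
import Pool.Agent.H66.UX.LEO
import Pool.Agent.H47.RJ.COV

/-!
# The Julia set: interior points and exactness

`js_int`: a Julia set with interior points is the sphere (`exc_fin`). `js_leo`: if the Julia set of a map of a family without new attracted critical points nearby is the sphere, then some image of every nonempty open set is the sphere (`leo_s`; for `2 ≤ m` infinity is in the Fatou set).
-/

set_option autoImplicit false

open Filter Topology Polynomial Metric Set MeasureTheory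

namespace Pool.Agent.H64.MN

open Pool.Agent.H44.Fatou (rat rat_continuous)
open Pool.Agent.H32.BT Pool.Agent.H79.Eul Pool.Agent.H79.Par Pool.Agent.H79.ES
open Pool.Agent.H44.RC Pool.Agent.H47.RJ
open Pool.Agent.H47.NM Pool.Agent.H47.NN Pool.Agent.H57.CF Pool.Agent.H44.ND
open Pool.Agent.H64.NC (js_conj up_zero)

variable {d : ℕ}

theorem js_int {u : E d} (hd : 2 ≤ d) (hcop : IsCoprime (pol u.1) (pol u.2))
    (hdeg : max (pol u.1).natDegree (pol u.2).natDegree = d) (h : (interior (JS (Rf u))).Nonempty) : JS (Rf u) = univ := by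
  have hJi : ∀ y ∈ JS (Rf u), Rf u y ∈ JS (Rf u) := Pool.Agent.H64.PF.js_inv hd hcop hdeg
  have hit : ∀ (n : ℕ), ∀ y ∈ JS (Rf u), (Rf u)^[n] y ∈ JS (Rf u) := by
    intro n
    induction n with
    | zero => exact fun y hy => hy
    | succ n ih =>
      intro y hy
      rw [Function.iterate_succ_apply']
      exact hJi _ (ih y hy)
  have h1 := exc_fin hd hcop hdeg (B := interior (JS (Rf u))) isOpen_interior (by
    obtain ⟨y, hy⟩ := h
    exact ⟨y, hy, interior_subset hy⟩)
  by_contra hJ
  have h2 : (JS (Rf u))ᶜ.Nonempty := by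
    rw [nonempty_compl]
    exact hJ
  obtain ⟨y, hy⟩ := h2
  have h3 : (JS (Rf u))ᶜ ∈ 𝓝 y := (js_closed (Rf u)).isOpen_compl.mem_nhds hy
  have h4 : (JS (Rf u))ᶜ.Infinite := by
    have h : (𝓝[≠] y).NeBot := by
      induction y using OnePoint.rec with
      | infty => infer_instance
      | coe z => infer_instance
    exact infinite_of_mem_nhds y h3
  apply h4
  refine h1.subset fun z hz j => ?_
  rintro ⟨w, hw, rfl⟩
  exact hz (hit j w (interior_subset hw))

theorem js_leo {m : ℕ} (hd : 2 ≤ d) (hm : m ≤ d) {x : Em d m} (hcop : IsCoprime (pol x.1) (pol x.2))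
    (hdeg : max (pol x.1).natDegree (pol x.2).natDegree = d) (hup : ¬ UpF d m x) (hJ : JS (Rf (ex d m x)) = univ)
    {O : Set (OnePoint ℂ)} (hO : IsOpen O) (hne : O.Nonempty) : ∃ n : ℕ, (Rf (ex d m x))^[n] '' O = univ := by
  have h1 : ∃ N : ℕ, ∀ n ≥ N, ∀ y, ∃ z ∈ O, (Rf (ex d m x))^[n] z = y := by
    rcases Nat.lt_or_ge m 2 with h2 | h2
    · have hup1 : ¬ Up (ex d m x) := by
        rcases Nat.lt_or_ge m 1 with h1 | h1
        · obtain rfl : m = 0 := by omega
          exact fun h => hup (up_zero h)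
        · obtain rfl : m = 1 := by omega
          exact fun h => hup (Pool.Agent.H64.PF.up_one hd hcop hdeg h)
      exact Pool.Agent.H66.UX.leo_s hd (ex_cop hcop) (ex_deg hdeg) hup1 hJ hO hne
    · exfalso
      obtain ⟨D, u, φ, K, T, h, -⟩ := Pool.Agent.H31.UDC.cdx_upF hd h2 hm hcop hdeg hup
      obtain ⟨y, hy⟩ := φ.surjective OnePoint.infty
      have h3 : φ y ∈ JS (Rf u) := (js_conj φ (fun y => (h.conj y).symm) y).2 (hJ ▸ mem_univ y)
      rw [hy] at h3
      exact h3 h.ga.fi
  obtain ⟨N, hN⟩ := h1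
  refine ⟨N, eq_univ_iff_forall.2 fun y => ?_⟩
  obtain ⟨z, hz, h2⟩ := hN N le_rfl y
  exact ⟨z, hz, h2⟩

end Pool.Agent.H64.MN
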