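import Pool.Agent.H44.RC.RCD

/-!
# Module Mnx: minimal sets

Every nonempty closed set of the sphere which is mapped into itself contains a minimal one.
-/

set_option autoImplicit false

open Filter Topology Metric Set

namespace Pool.Agent.H64.MN

theorem min_ex {f : OnePoint ℂ → OnePoint ℂ} {K : Set (OnePoint ℂ)} (hK : IsClosed K) (hne : K.Nonempty) (hf : ∀ x ∈ K, f x ∈ K) :
    ∃ M ⊆ K, IsClosed M ∧ M.Nonempty ∧ (∀ x ∈ M, f x ∈ M) ∧
      ∀ A ⊆ M, IsClosed A → A.Nonempty → (∀ x ∈ A, f x ∈ A) → A = M := by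
  obtain ⟨M, hM1, hM2⟩ := zorn_superset_nonempty {A : Set (OnePoint ℂ) | IsClosed A ∧ A.Nonempty ∧ ∀ x ∈ A, f x ∈ A} (by
    intro c hc hchain hne
    have hcn : Nonempty c := hne.to_subtype
    have hdir : Directed (· ⊇ ·) (fun s : c => (s : Set (OnePoint ℂ))) := by
      intro s t
      rcases hchain.total s.2 t.2 with h | h
      · exact ⟨s, subset_rfl, h⟩
      · exact ⟨t, h, subset_rfl⟩
    refine ⟨⋂₀ c, ⟨isClosed_sInter (fun s hs => (hc hs).1), ?_, ?_⟩, fun s hs => sInter_subset_of_mem hs⟩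
    · rw [sInter_eq_iInter]
      exact IsCompact.nonempty_iInter_of_directed_nonempty_isCompact_isClosed _ hdir (fun s => (hc s.2).2.1)
        (fun s => (hc s.2).1.isCompact) (fun s => (hc s.2).1)
    · intro x hx
      rw [mem_sInter] at hx ⊢
      exact fun s hs => (hc hs).2.2 x (hx s hs)) K ⟨hK, hne, hf⟩
  refine ⟨M, hM1, hM2.1.1, hM2.1.2.1, hM2.1.2.2, fun A h1 h2 h3 h4 => ?_⟩
  exact h1.antisymm (hM2.2 ⟨h2, h3, h4⟩ h1)

end Pool.Agent.H64.MN
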