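import Pool.Agent.H64.MM.Fam2
import Pool.Agent.H56.MX.Defs
import Pool.Agent.H64.NC.CHU

/-!
# THEOREM M+: the chart at a given fixed point, critical points far from the limit set

`chx`: as `fam2` (H64/MM/Fam2) with the given fixed point `q` and `Cl` instead of `Cw`. `cl_far`: a critical point which is not in `Cl f a` stays away from `Om f a`.
-/

set_option autoImplicit false

open Filter Topology Polynomial Metric Set

namespace Pool.Agent.H64.MN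

open Pool.Agent.H44.Fatou (rat rat_continuous rat_coe rat_coe_of_ne rat_infty pt dg)
open Pool.Agent.H32.BT Pool.Agent.H79.Eul Pool.Agent.H79.Par Pool.Agent.H79.ES
open Pool.Agent.H35.EX Pool.Agent.H44.RR Pool.Agent.H44.RC Pool.Agent.H47.RJ
open Pool.Agent.H47.NM Pool.Agent.H57.CF Pool.Agent.H47.PS Pool.Agent.H64.NC
open Pool.Agent.H91.ATT (Mb mb_refl mb_comp ch_mob_b)
open Pool.Agent.H56.MX (Cl)
open Pool.Agent.H47.MM (Hyp)
open Pool.Agent.H39.EMB (om_sub1)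
open Pool.Agent.H64.MM (ch_pt cl_orb fin_min)

variable {d : ℕ}

/-- the facts on the Julia set of a map of the family -/
private theorem js_fact (hd : 2 ≤ d) {v : E d} (hcopv : IsCoprime (pol v.1) (pol v.2))
    (hdegv : max (pol v.1).natDegree (pol v.2).natDegree = d) :
    (∀ (n : ℕ) {y : OnePoint ℂ}, y ∈ JS (Rf v) → (Rf v)^[n] y ∈ JS (Rf v)) ∧
    (∀ (n : ℕ) {y : OnePoint ℂ}, (Rf v)^[n] y ∈ JS (Rf v) → y ∈ JS (Rf v)) := by
  have hJi : ∀ y ∈ JS (Rf v), Rf v y ∈ JS (Rf v) :=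
    fun y hy hF => hy ((fs_iff (by omega) hcopv hdegv 1 y).1 hF)
  have hJb : ∀ y, Rf v y ∈ JS (Rf v) → y ∈ JS (Rf v) :=
    fun y hy hF => hy ((fs_iff (by omega) hcopv hdegv 1 y).2 hF)
  refine ⟨?_, ?_⟩
  · intro n
    induction n with
    | zero => exact fun hy => hy
    | succ n ih =>
      intro y hy
      rw [Function.iterate_succ_apply']
      exact hJi _ (ih hy)
  · intro n
    induction n with
    | zero => exact fun hy => hy
    | succ n ih =>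
      intro y hy
      rw [Function.iterate_succ_apply'] at hy
      exact ih (hJb _ hy)

theorem cl_far {m : ℕ} (hd : 2 ≤ d) (hm : m ≤ d) {x : Em d m} (hcop : IsCoprime (pol x.1) (pol x.2))
    (hdeg : max (pol x.1).natDegree (pol x.2).natDegree = d) (hup : ¬ UpF d m x) {a : OnePoint ℂ}
    (haJ : a ∈ JS (Rf (ex d m x))) : ∃ ρ : ℝ, 0 < ρ ∧ ∀ c' : OnePoint ℂ, IsCrit (Rf (ex d m x)) c' →
      c' ∉ Cl (Rf (ex d m x)) a → ∀ n : ℕ, ∀ y ∈ Om (Rf (ex d m x)) a, ρ ≤ chord ((Rf (ex d m x))^[n] c') y := by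
  obtain ⟨v, hv⟩ : ∃ v, v = ex d m x := ⟨_, rfl⟩
  have hcopv : IsCoprime (pol v.1) (pol v.2) := hv ▸ ex_cop hcop
  have hdegv : max (pol v.1).natDegree (pol v.2).natDegree = d := hv ▸ ex_deg hdeg
  have hfat : ∀ c, IsCrit (Rf v) c → c ∉ JS (Rf v) → ∃ (δ : ℝ) (N : ℕ), 0 < δ ∧ ∀ n, N ≤ n →
      ∀ y ∈ JS (Rf v), δ ≤ chord ((Rf v)^[n] c) y := by
    rw [hv]
    exact Pool.Agent.H3.UP.fat_fam hd hm hcop hdeg hup
  rw [← hv] at haJ ⊢
  have hJc : IsClosed (JS (Rf v)) := js_closed _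
  obtain ⟨hit, hitb⟩ := js_fact hd hcopv hdegv
  have hd1 : 1 ≤ max (pol v.1).natDegree (pol v.2).natDegree := by omega
  have hOc : IsClosed (Om (Rf v) a) := Pool.Agent.H39.EMB.om_closed _
  have hOJ : Om (Rf v) a ⊆ JS (Rf v) := om_sub1 hJc (Eventually.of_forall fun n => hit n haJ)
  have hfinC : {c' | IsCrit (Rf v) c'}.Finite := crit_finite hcopv hd1
  obtain ⟨ρ, hρ, h1⟩ := fin_min hfinC (P := fun ρ c' => c' ∉ Cl (Rf v) a → ∀ n : ℕ, ∀ y ∈ Om (Rf v) a,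
      ρ ≤ chord ((Rf v)^[n] c') y) (fun c ρ ρ' h1 h2 h3 n y hy => h1.trans (h2 h3 n y hy)) fun c' hc' => by
    by_cases hcl : c' ∈ Cl (Rf v) a
    · exact ⟨1, one_pos, fun h3 => absurd hcl h3⟩
    by_cases hcJ : c' ∈ JS (Rf v)
    · have h3 : Disjoint (closure (range fun n : ℕ => (Rf v)^[n] c')) (Om (Rf v) a) := by
        rw [Set.disjoint_iff_inter_eq_empty]
        by_contra h4
        exact hcl ⟨hc', hcJ, nonempty_iff_ne_empty.2 h4⟩
      obtain ⟨η, hη, h4⟩ := ch_sep isClosed_closure hOc h3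
      exact ⟨η, hη, fun _ n y hy => h4 _ (subset_closure ⟨n, rfl⟩) y hy⟩
    · obtain ⟨δ, N, hδ, h4⟩ := hfat c' hc' hcJ
      obtain ⟨ρ, hρ, h2⟩ := fin_min (Finset.finite_toSet (Finset.range N))
        (P := fun ρ n => ∀ y ∈ Om (Rf v) a, ρ ≤ chord ((Rf v)^[n] c') y)
        (fun c ρ ρ' h1 h2 y hy => h1.trans (h2 y hy)) fun n _ => by
          have h3 : Disjoint ({(Rf v)^[n] c'} : Set (OnePoint ℂ)) (Om (Rf v) a) := by
            rw [Set.disjoint_singleton_left]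
            exact fun h5 => hcJ (hitb n (hOJ h5))
          obtain ⟨η, hη, h5⟩ := ch_sep isClosed_singleton hOc h3
          exact ⟨η, hη, fun y hy => h5 _ rfl y hy⟩
      refine ⟨min δ ρ, lt_min hδ hρ, fun _ n y hy => ?_⟩
      rcases Nat.lt_or_ge n N with h3 | h3
      · exact (min_le_right _ _).trans (h2 n (Finset.mem_coe.2 (Finset.mem_range.2 h3)) y hy)
      · exact (min_le_left _ _).trans (h4 n h3 y (hOJ hy))
  exact ⟨ρ, hρ, fun c' hc' h2 => h1 c' hc' h2⟩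

theorem chx {m : ℕ} (hd : 2 ≤ d) (hm : m ≤ d) {x : Em d m} (hcop : IsCoprime (pol x.1) (pol x.2))
    (hdeg : max (pol x.1).natDegree (pol x.2).natDegree = d) (hup : ¬ UpF d m x) (a : OnePoint ℂ) {q : OnePoint ℂ}
    (hq : Rf (ex d m x) q = q) :
    ∃ (u : E d) (φ : OnePoint ℂ ≃ₜ OnePoint ℂ), Mb φ ∧ φ q = OnePoint.infty ∧ (∀ y, Rf u (φ y) = φ (Rf (ex d m x) y)) ∧
      IsCoprime (pol u.1) (pol u.2) ∧ max (pol u.1).natDegree (pol u.2).natDegree = d ∧ Rf u OnePoint.infty = OnePoint.infty ∧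
      J6 (Rf u) ∧ (∀ c ∈ Cl (Rf (ex d m x)) a, φ c ≠ OnePoint.infty) ∧
      Hyp (pol u.1) (pol u.2) {z : ℂ | φ.symm (z : OnePoint ℂ) ∈ Cl (Rf (ex d m x)) a} := by
  obtain ⟨v, hv⟩ : ∃ v, v = ex d m x := ⟨_, rfl⟩
  have hcopv : IsCoprime (pol v.1) (pol v.2) := hv ▸ ex_cop hcop
  have hdegv : max (pol v.1).natDegree (pol v.2).natDegree = d := hv ▸ ex_deg hdeg
  have hnper : ∀ {c : OnePoint ℂ}, IsCrit (Rf v) c → c ∈ JS (Rf v) → Rf v c ≠ c := by
    intro c h1 h2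
    rw [hv] at h1 h2 ⊢
    have h3 := Pool.Agent.H39.EMB.crit_nper hd hm hcop hdeg hup h1 h2 (N := 1) le_rfl
    rwa [Function.iterate_one] at h3
  have hfat : ∀ c, IsCrit (Rf v) c → c ∉ JS (Rf v) → ∃ (δ : ℝ) (N : ℕ), 0 < δ ∧ ∀ n, N ≤ n →
      ∀ y ∈ JS (Rf v), δ ≤ chord ((Rf v)^[n] c) y := by
    rw [hv]
    exact Pool.Agent.H3.UP.fat_fam hd hm hcop hdeg hup
  rw [← hv] at hq ⊢
  have hcont : Continuous (Rf v) := rat_continuous hcopv
  obtain ⟨-, hitb⟩ := js_fact hd hcopv hdegv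
  have hcq : ∀ c ∈ Cl (Rf v) a, c ≠ q := by
    rintro c ⟨h1, h2, -⟩ h5
    exact hnper h1 h2 (h5 ▸ hq)
  obtain ⟨L, G, φ, K, hch, hmb, hφq⟩ := ch_pt (d := d) hd q
  obtain ⟨hcopL, hdegL, hφ⟩ := hch.conj v hcopv hdegv
  have hne : ∀ y : OnePoint ℂ, y ≠ q → φ y ≠ OnePoint.infty := fun y hy h1 => by
    rw [← hφq] at h1
    exact hy (φ.injective h1)
  have hi : Rf (L v) OnePoint.infty = OnePoint.infty := by rw [← hφq, hφ, hq]
  have hd1 : 1 ≤ max (pol v.1).natDegree (pol v.2).natDegree := by omega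
  have hfin : (Cl (Rf v) a).Finite := (crit_finite hcopv hd1).subset fun c hc => hc.1
  have hitφ : ∀ (n : ℕ) (y : OnePoint ℂ), (Rf (L v))^[n] (φ y) = φ ((Rf v)^[n] y) := by
    intro n
    induction n with
    | zero => exact fun y => rfl
    | succ n ih =>
      intro y
      rw [Function.iterate_succ_apply', Function.iterate_succ_apply', ih, hφ]
  refine ⟨L v, φ, hmb, hφq, hφ, hcopL, hdegL, hi, j6_of hd hcopL hdegL, fun c hc => hne c (hcq c hc), ?_⟩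
  -- the orbits of the other critical points stay away from `Cl`
  have hoff : ∀ c', IsCrit (Rf v) c' → c' ∉ Cl (Rf v) a → ∃ ρ : ℝ, 0 < ρ ∧ ∀ n : ℕ, ∀ c ∈ Cl (Rf v) a,
      ρ ≤ chord ((Rf v)^[n] c') c := by
    intro c' hc' hcn
    refine fin_min hfin (P := fun ρ c => ∀ n : ℕ, ρ ≤ chord ((Rf v)^[n] c') c) (fun c ρ ρ' h1 h2 n => h1.trans (h2 n)) ?_ |>.imp
      fun ρ h1 => ⟨h1.1, fun n c hc => h1.2 c hc n⟩
    intro c hc
    by_cases hcJ : c' ∈ JS (Rf v)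
    · -- the orbit closure does not meet `Cl`
      have h3 : c ∈ (closure (range fun n : ℕ => (Rf v)^[n] c'))ᶜ := by
        obtain ⟨h3, h4, b, hb, h5⟩ := hc
        exact fun h2 => hcn ⟨hc', hcJ, b, cl_orb hcont h2 hb, h5⟩
      obtain ⟨ρ, hρ, h4⟩ := Pool.Agent.H47.RJ.ch_nhds (isClosed_closure.isOpen_compl.mem_nhds h3)
      refine ⟨ρ, hρ, fun n => ?_⟩
      by_contra h5
      push Not at h5
      rw [chord_comm] at h5
      exact h4 _ h5 (subset_closure ⟨n, rfl⟩)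
    · obtain ⟨δ, N, hδ, h1⟩ := hfat c' hc' hcJ
      obtain ⟨ρ, hρ, h2⟩ := fin_min (Finset.finite_toSet (Finset.range N)) (P := fun ρ n => ρ ≤ chord ((Rf v)^[n] c') c)
        (fun c ρ ρ' h1 h2 => h1.trans h2) fun n _ => by
          refine ⟨chord ((Rf v)^[n] c') c, chord_pos fun h3 => hcJ (hitb n (h3 ▸ hc.2.1)), le_rfl⟩
      refine ⟨min δ ρ, lt_min hδ hρ, fun n => ?_⟩
      rcases Nat.lt_or_ge n N with h3 | h3
      · exact (min_le_right _ _).trans (h2 n (Finset.mem_coe.2 (Finset.mem_range.2 h3)))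
      · exact (min_le_left _ _).trans (h1 n h3 c hc.2.1)
  have hφC : ∀ c ∈ Cl (Rf v) a, ∃ z : ℂ, φ c = (z : OnePoint ℂ) := fun c hc => by
    obtain ⟨z, hz⟩ := OnePoint.ne_infty_iff_exists.1 (hne c (hcq c hc))
    exact ⟨z, hz.symm⟩
  refine ⟨hcopL, by omega, hi, ?_, ?_, ?_, ?_⟩
  · exact (hfin.image φ).preimage OnePoint.coe_injective.injOn |>.subset fun z hz => ⟨_, hz, φ.apply_symm_apply _⟩
  · intro z hz
    have h1 : IsCrit (Rf (L v)) (φ (φ.symm (z : OnePoint ℂ))) := (isCrit_conj φ hφ _).2 hz.1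
    rwa [φ.apply_symm_apply] at h1
  · intro z hz
    have h1 : φ (φ.symm (z : OnePoint ℂ)) ∈ JS (Rf (L v)) := (js_conj φ (fun y => (hφ y).symm) _).2 hz.2.1
    rwa [φ.apply_symm_apply] at h1
  · -- `off`
    have hfinC : {c' | IsCrit (Rf v) c'}.Finite := crit_finite hcopv hd1
    obtain ⟨ρ, hρ, h1⟩ := fin_min hfinC (P := fun ρ c' => c' ∉ Cl (Rf v) a → ∀ n : ℕ, ∀ c ∈ Cl (Rf v) a,
        ρ ≤ chord ((Rf v)^[n] c') c) (fun c ρ ρ' h1 h2 h3 n c hc => h1.trans (h2 h3 n c hc)) fun c' hc' => by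
          by_cases h2 : c' ∈ Cl (Rf v) a
          · exact ⟨1, one_pos, fun h3 => absurd h2 h3⟩
          · obtain ⟨ρ, h3, h4⟩ := hoff c' hc' h2
            exact ⟨ρ, h3, fun _ => h4⟩
    have hK : 0 < K := one_pos.trans_le hch.K1
    refine ⟨ρ / K, by positivity, fun c1 hc1 hne1 n c hc z hz => ?_⟩
    obtain ⟨c', rfl⟩ := φ.surjective c1
    have h2 : IsCrit (Rf v) c' := (isCrit_conj φ hφ c').1 hc1
    have h3 : c' ∉ Cl (Rf v) a := by
      intro h4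
      obtain ⟨w, hw⟩ := hφC c' h4
      refine hne1 w ?_ hw
      show φ.symm (w : OnePoint ℂ) ∈ Cl (Rf v) a
      rw [← hw, φ.symm_apply_apply]
      exact h4
    have h4 := h1 c' h2 h3 n (φ.symm (c : OnePoint ℂ)) hc
    have h5 := (hch.bil ((Rf v)^[n] c') (φ.symm (c : OnePoint ℂ))).2
    rw [φ.apply_symm_apply, ← hitφ] at h5
    have hz' : (Rf (L v))^[n] (φ c') = (z : OnePoint ℂ) := hz
    rw [hz'] at h5
    have h6 : chord (z : OnePoint ℂ) (c : OnePoint ℂ) ≤ ‖z - c‖ := by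
      change ‖z - c‖ / (√(1 + ‖z‖ ^ 2) * √(1 + ‖c‖ ^ 2)) ≤ _
      refine div_le_self (norm_nonneg _) ?_
      have h7 : 1 ≤ √(1 + ‖z‖ ^ 2) := Real.one_le_sqrt.2 (by nlinarith [sq_nonneg ‖z‖])
      have h8 : 1 ≤ √(1 + ‖c‖ ^ 2) := Real.one_le_sqrt.2 (by nlinarith [sq_nonneg ‖c‖])
      nlinarith
    rw [div_le_iff₀ hK]
    calc ρ ≤ K * chord (z : OnePoint ℂ) (c : OnePoint ℂ) := h4.trans h5
      _ ≤ K * ‖z - c‖ := mul_le_mul_of_nonneg_left h6 hK.le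
      _ = ‖z - c‖ * K := mul_comm _ _

end Pool.Agent.H64.MN
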